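import Pool.Agent.H53R6.Perm
import Pool.Agent.H567.Nec.Formula
import Pool.Agent.H567.Nec.Count
import Pool.Agent.H567.Border.Main

/-! # Counting -/

set_option autoImplicit false
set_option linter.unusedSectionVars false

namespace Pool.Agent.H53R6

open MvPolynomial Pool.Agent.H53R5 Pool.Agent.H567.Nec Pool.Agent.H567.Border

universe u

/-- local bound for formulas -/
theorem local_formula {K : Type u} [Field K] [CharZero K] (m ℓ n' : ℕ) (hm : 2 * ℓ + n' = m)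
    (hn : n' ≤ 2 ^ ℓ) (hn0 : 1 ≤ n') (r c : Fin (2 * ℓ) → Fin m) (hr : Function.Injective r)
    (hc : Function.Injective c) (F : Formula K (Fin m × Fin m)) (hf : F.poly ≠ 0)
    (hvan : ∀ p, eval p (gperm K m) = 0 → eval p F.poly = 0) (T : Finset (Fin m × Fin m))
    (hT : T = Finset.univ.image (fun s => (r s, c s))) : n' ^ 2 - 2 ≤ 4 * F.occ T := by
  classical
  obtain ⟨P, h1, h2, h3⟩ := exists_jets_vanish m ℓ n' hm hn hn0 r c hr hc F.poly hf hvan T hT
  obtain ⟨D, hD, hDmem⟩ := Formula.exists_submodule (P := P) (T := T) (fun v hv ξ => h1 ξ v hv)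
    (fun v hv ξ ξ' => h2 ξ ξ' v hv) F
  have hT : D = ⊤ := h3 D hDmem
  rw [hT, finrank_top] at hD
  simp only [Module.finrank_fintype_fun_eq_card, Fintype.card_fin] at hD
  omega

lemma count_formula {K : Type u} (m : ℕ) (F : Formula K (Fin m × Fin m))
    (hloc : ∀ ℓ n' : ℕ, 2 * ℓ + n' = m → n' ≤ 2 ^ ℓ → 1 ≤ n' → ∀ r c : Fin (2 * ℓ) → Fin m,
      Function.Injective r → Function.Injective c → ∀ T : Finset (Fin m × Fin m),
      T = Finset.univ.image (fun s => (r s, c s)) → n' ^ 2 - 2 ≤ 4 * F.occ T) :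
    m * (m - 2 * Nat.clog 2 m) * ((m - 2 * Nat.clog 2 m) ^ 2 - 2)
      ≤ 8 * Nat.clog 2 m * F.size := by
  classical
  set ℓ := Nat.clog 2 m with hℓ
  by_cases hm : m ≤ 2 * ℓ
  · rw [Nat.sub_eq_zero_of_le hm]; simp
  push Not at hm
  have hm0 : NeZero m := ⟨by omega⟩
  obtain ⟨n', hn'⟩ : ∃ n', 2 * ℓ + n' = m := ⟨m - 2 * ℓ, by omega⟩
  have hn2 : n' ≤ 2 ^ ℓ := by
    have := Nat.le_pow_clog (b := 2) (by norm_num) m
    rw [← hℓ] at this
    omega
  have hsub : m - 2 * ℓ = n' := by omega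
  rw [hsub]
  rcases Nat.eq_zero_or_pos ℓ with h0 | h0
  · have hm1 : m ≤ 1 := by
      by_contra hcon
      have := Nat.clog_pos (b := 2) (n := m) (by norm_num) (by omega)
      omega
    have hn1 : n' = 1 := by omega
    subst hn1
    simp
  have hloc' : ∀ p : Fin m × Fin (m / (2 * ℓ)),
      n' ^ 2 - 2 ≤ 4 * F.occ (blk m (2 * ℓ) p) := by
    intro p
    exact hloc ℓ n' hn' hn2 (by omega) (rowB m (2 * ℓ) p.2)
      (colB m (2 * ℓ) p.1 p.2) (rowB_injective _ _ _) (colB_injective _ _ _ _) _ rfl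
  have hsum := Formula.sum_occ_le Finset.univ (blk m (2 * ℓ)) (blk_disjoint m (2 * ℓ)) F
  have h4 : (m * (m / (2 * ℓ))) * (n' ^ 2 - 2) ≤ 4 * F.size := by
    calc (m * (m / (2 * ℓ))) * (n' ^ 2 - 2)
        = ∑ _p : Fin m × Fin (m / (2 * ℓ)), (n' ^ 2 - 2) := by
          rw [Finset.sum_const, Finset.card_univ, Fintype.card_prod, Fintype.card_fin,
            Fintype.card_fin, smul_eq_mul]
      _ ≤ ∑ p : Fin m × Fin (m / (2 * ℓ)), 4 * F.occ (blk m (2 * ℓ) p) :=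
          Finset.sum_le_sum (fun p _ => hloc' p)
      _ = 4 * ∑ p : Fin m × Fin (m / (2 * ℓ)), F.occ (blk m (2 * ℓ) p) := by
          rw [Finset.mul_sum]
      _ ≤ 4 * F.size := Nat.mul_le_mul_left _ hsum
  have h5 : n' ≤ 2 * ℓ * (m / (2 * ℓ)) := by
    have := Nat.div_add_mod m (2 * ℓ)
    have := Nat.mod_lt m (show 0 < 2 * ℓ by omega)
    omega
  calc m * n' * (n' ^ 2 - 2) ≤ m * (2 * ℓ * (m / (2 * ℓ))) * (n' ^ 2 - 2) := by
        gcongr
    _ = 2 * ℓ * ((m * (m / (2 * ℓ))) * (n' ^ 2 - 2)) := by ring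
    _ ≤ 2 * ℓ * (4 * F.size) := Nat.mul_le_mul_left _ h4
    _ = 8 * ℓ * F.size := by ring

open Classical in
/-- the number of sources below `o` labelled by variables of `T` -/
noncomputable def srcs {K : Type u} {σ : Type} (Φ : Circuit K σ) (o : Fin Φ.N) (T : Finset σ) : ℕ :=
  (Finset.univ.filter (fun a => Φ.Sub o a ∧ Circuit.TSrc Φ T a)).card

open Classical in
/-- local bound for weakly skew circuits -/
theorem local_skew {K : Type u} [Field K] {σ : Type} (Φ : Circuit K σ) (hΦ : Φ.WeaklySkew)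
    (o : Fin Φ.N) (T : Finset σ) {Ξ : Type*} [Nonempty Ξ] (n' : ℕ) (hn0 : 1 ≤ n')
    (P : Ξ → σ → TrivSqZeroExt K (Fin (n' ^ 2 - 1) → K))
    (h1 : ∀ ξ, ∀ v ∈ T, (P ξ v).snd = 0) (h2 : ∀ ξ ξ' v, v ∉ T → P ξ v = P ξ' v)
    (h3 : ∀ A : Submodule K (Fin (n' ^ 2 - 1) → K),
      (∀ ξ, (aeval (P ξ) (Φ.value o)).snd ∈ A) → A = ⊤) :
    7 * n' ≤ 5 * srcs Φ o T + 9 := by
  obtain ⟨χ⟩ := hΦ.exists_choice
  have hgood := Circuit.good_sub χ (T := T) (P := P) (fun v hv ξ => h1 ξ v hv)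
    (fun v hv ξ ξ' => h2 ξ ξ' v hv) o
  obtain ⟨D, hD, hDmem⟩ := hgood.exists_submodule (f := Circuit.jet P o)
    ⟨o, Circuit.Reu.self χ o, rfl⟩
  have hT : D = ⊤ := h3 D hDmem
  rw [hT, finrank_top] at hD
  simp only [Module.finrank_fintype_fun_eq_card, Fintype.card_fin] at hD
  have he : (Finset.univ.filter (fun a => Φ.Sub o a ∧ Circuit.TSrc Φ T a)).card = srcs Φ o T := rfl
  rw [he] at hD
  set e := srcs Φ o T with hedef
  have h4 : 2 * n' ^ 2 ≤ (e + 1) * (e + 2) + 2 := by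
    have : 1 ≤ n' ^ 2 := Nat.one_le_pow _ _ hn0
    omega
  by_contra hcon
  push Not at hcon
  -- 5 e + 10 ≤ 7 n'
  have h5 : 5 * e + 10 ≤ 7 * n' := by omega
  have h6 : 2 ≤ n' := by omega
  nlinarith [Nat.mul_le_mul h5 h5, Nat.mul_le_mul h6 h6]

open Classical in
lemma count_skew {K : Type u} (m : ℕ) (Φ : Circuit K (Fin m × Fin m)) (o : Fin Φ.N)
    (hloc : ∀ ℓ n' : ℕ, 2 * ℓ + n' = m → n' ≤ 2 ^ ℓ → 1 ≤ n' → ∀ r c : Fin (2 * ℓ) → Fin m,
      Function.Injective r → Function.Injective c → ∀ T : Finset (Fin m × Fin m),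
      T = Finset.univ.image (fun s => (r s, c s)) → 7 * n' ≤ 5 * srcs Φ o T + 9) :
    m * (m - 2 * Nat.clog 2 m) * (7 * (m - 2 * Nat.clog 2 m) - 9)
      ≤ 10 * Nat.clog 2 m * (Φ.size + 1) := by
  set ℓ := Nat.clog 2 m with hℓ
  by_cases hm : m ≤ 2 * ℓ
  · rw [Nat.sub_eq_zero_of_le hm]; simp
  push Not at hm
  have hm0 : NeZero m := ⟨by omega⟩
  obtain ⟨n', hn'⟩ : ∃ n', 2 * ℓ + n' = m := ⟨m - 2 * ℓ, by omega⟩
  have hn2 : n' ≤ 2 ^ ℓ := by
    have := Nat.le_pow_clog (b := 2) (by norm_num) m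
    rw [← hℓ] at this
    omega
  have hsub : m - 2 * ℓ = n' := by omega
  rw [hsub]
  rcases Nat.eq_zero_or_pos ℓ with h0 | h0
  · have hm1 : m ≤ 1 := by
      by_contra hcon
      have := Nat.clog_pos (b := 2) (n := m) (by norm_num) (by omega)
      omega
    have hn1 : n' = 1 := by omega
    subst hn1
    simp
  have hloc' : ∀ p : Fin m × Fin (m / (2 * ℓ)),
      7 * n' - 9 ≤ 5 * srcs Φ o (blk m (2 * ℓ) p) := by
    intro p
    have := hloc ℓ n' hn' hn2 (by omega) (rowB m (2 * ℓ) p.2) (colB m (2 * ℓ) p.1 p.2)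
      (rowB_injective _ _ _) (colB_injective _ _ _ _) (blk m (2 * ℓ) p) rfl
    omega
  have hsum := Circuit.sum_sources_le Φ o Finset.univ (blk m (2 * ℓ)) (blk_disjoint m (2 * ℓ))
  have hsum' : ∑ p : Fin m × Fin (m / (2 * ℓ)), srcs Φ o (blk m (2 * ℓ) p) ≤ Φ.size + 1 := by
    refine le_trans (le_of_eq ?_) hsum
    refine Finset.sum_congr rfl fun p _ => ?_
    rfl
  have h4 : (m * (m / (2 * ℓ))) * (7 * n' - 9) ≤ 5 * (Φ.size + 1) := by
    calc (m * (m / (2 * ℓ))) * (7 * n' - 9)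
        = ∑ _p : Fin m × Fin (m / (2 * ℓ)), (7 * n' - 9) := by
          rw [Finset.sum_const, Finset.card_univ, Fintype.card_prod, Fintype.card_fin,
            Fintype.card_fin, smul_eq_mul]
      _ ≤ ∑ p : Fin m × Fin (m / (2 * ℓ)), 5 * srcs Φ o (blk m (2 * ℓ) p) :=
          Finset.sum_le_sum (fun p _ => hloc' p)
      _ = 5 * ∑ p : Fin m × Fin (m / (2 * ℓ)), srcs Φ o (blk m (2 * ℓ) p) := by
          rw [Finset.mul_sum]
      _ ≤ 5 * (Φ.size + 1) := Nat.mul_le_mul_left _ hsum'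
  have h5 : n' ≤ 2 * ℓ * (m / (2 * ℓ)) := by
    have := Nat.div_add_mod m (2 * ℓ)
    have := Nat.mod_lt m (show 0 < 2 * ℓ by omega)
    omega
  calc m * n' * (7 * n' - 9) ≤ m * (2 * ℓ * (m / (2 * ℓ))) * (7 * n' - 9) := by
        gcongr
    _ = 2 * ℓ * ((m * (m / (2 * ℓ))) * (7 * n' - 9)) := by ring
    _ ≤ 2 * ℓ * (5 * (Φ.size + 1)) := Nat.mul_le_mul_left _ h4
    _ = 10 * ℓ * (Φ.size + 1) := by ring

/-- The jets of a polynomial over `k(ε)` which tends to `g` span everything if those of `g` do. -/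
theorem border_span' (k : Type u) [Field k] {σ : Type} {ω : Type} [Fintype ω]
    {Ξ : Type*} (g : MvPolynomial σ k) (P : Ξ → σ → TrivSqZeroExt k (ω → k))
    (h3 : ∀ A : Submodule k (ω → k), (∀ ξ, (MvPolynomial.aeval (P ξ) g).snd ∈ A) → A = ⊤)
    (F : MvPolynomial σ (RatFunc k))
    (hF : ∀ d : σ →₀ ℕ, (F.coeff d).denom.eval 0 ≠ 0 ∧
      RatFunc.eval (RingHom.id k) 0 (F.coeff d) = g.coeff d)
    (D : Submodule (RatFunc k) (ω → RatFunc k))
    (hD : ∀ ξ, (MvPolynomial.aeval (fun v => tmap ω (algebraMap (Polynomial k) (RatFunc k))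
      (tmap ω Polynomial.C (P ξ v))) F).snd ∈ D) : D = ⊤ := by
  obtain ⟨e, G, hg, hG1, hG2⟩ := exists_clear k F g hF
  apply border_top (R := Polynomial k) (k := k) (Polynomial.evalRingHom (0 : k))
    (algebraMap (Polynomial k) (RatFunc k)) (FaithfulSMul.algebraMap_injective _ _)
    (fun ξ w => (MvPolynomial.aeval (fun v => tmap ω Polynomial.C (P ξ v)) G).snd w)
  · intro A hA
    apply h3
    intro ξ
    have h4 := hA ξ
    have h5 : (fun w => (Polynomial.evalRingHom (0 : k))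
        ((MvPolynomial.aeval (fun v => tmap ω Polynomial.C (P ξ v)) G).snd w))
        = e.eval 0 • (MvPolynomial.aeval (P ξ) g).snd := by
      have h6 := tmap_aeval ω (Polynomial.evalRingHom (0 : k))
        (fun v => tmap ω Polynomial.C (P ξ v)) G
      have h7 : (fun v => tmap ω (Polynomial.evalRingHom (0 : k))
          (tmap ω Polynomial.C (P ξ v))) = P ξ := by
        funext v
        rw [tmap_tmap]
        apply TrivSqZeroExt.ext
        · simp
        · funext w; simp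
      rw [h7, hG2, map_mul, MvPolynomial.aeval_C] at h6
      rw [← snd_algebraMap_mul, ← h6]
      funext w
      exact (tmap_snd _ _ _ w).symm
    rw [h5] at h4
    have h8 := A.smul_mem (e.eval 0)⁻¹ h4
    rwa [smul_smul, inv_mul_cancel₀ hg, one_smul] at h8
  · intro ξ
    have h6 := tmap_aeval ω (algebraMap (Polynomial k) (RatFunc k))
        (fun v => tmap ω Polynomial.C (P ξ v)) G
    rw [hG1, map_mul, MvPolynomial.aeval_C] at h6
    have h5 : (fun w => (algebraMap (Polynomial k) (RatFunc k))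
        ((MvPolynomial.aeval (fun v => tmap ω Polynomial.C (P ξ v)) G).snd w))
        = (algebraMap (Polynomial k) (RatFunc k) e) •
          (MvPolynomial.aeval (fun v => tmap ω (algebraMap (Polynomial k) (RatFunc k))
            (tmap ω Polynomial.C (P ξ v))) F).snd := by
      rw [← snd_algebraMap_mul, ← h6]
      funext w
      exact (tmap_snd _ _ _ w).symm
    rw [h5]
    exact D.smul_mem _ (hD ξ)

/-- jets over `k(ε)` -/
theorem exists_jets_border {k : Type u} [Field k] [CharZero k] (m ℓ n' : ℕ) (hm : 2 * ℓ + n' = m)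
    (hn : n' ≤ 2 ^ ℓ) (hn0 : 1 ≤ n') (r c : Fin (2 * ℓ) → Fin m) (hr : Function.Injective r)
    (hc : Function.Injective c) (g : MvPolynomial (Fin m × Fin m) k) (hg : g ≠ 0)
    (hvan : ∀ p, eval p (gperm k m) = 0 → eval p g = 0)
    (F : MvPolynomial (Fin m × Fin m) (RatFunc k))
    (hF : ∀ d : Fin m × Fin m →₀ ℕ, (F.coeff d).denom.eval 0 ≠ 0 ∧
      RatFunc.eval (RingHom.id k) 0 (F.coeff d) = g.coeff d)
    (T : Finset (Fin m × Fin m)) (hT : T = Finset.univ.image (fun s => (r s, c s))) :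
    ∃ P : (Fin m × Fin m → k) → (Fin m × Fin m) →
        TrivSqZeroExt (RatFunc k) (Fin (n' ^ 2 - 1) → RatFunc k),
      (∀ ξ, ∀ v ∈ T, (P ξ v).snd = 0) ∧ (∀ ξ ξ' v, v ∉ T → P ξ v = P ξ' v) ∧
      (∀ A : Submodule (RatFunc k) (Fin (n' ^ 2 - 1) → RatFunc k),
        (∀ ξ, (aeval (P ξ) F).snd ∈ A) → A = ⊤) := by
  obtain ⟨P, h1, h2, h3⟩ := exists_jets_vanish m ℓ n' hm hn hn0 r c hr hc g hg hvan T hT
  refine ⟨fun ξ v => tmap (Fin (n' ^ 2 - 1)) (algebraMap (Polynomial k) (RatFunc k))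
      (tmap (Fin (n' ^ 2 - 1)) Polynomial.C (P ξ v)), ?_, ?_, ?_⟩
  · intro ξ v hv
    funext w
    rw [tmap_snd, tmap_snd, h1 ξ v hv]
    simp
  · intro ξ ξ' v hv
    simp only
    rw [h2 ξ ξ' v hv]
  · intro A hA
    exact border_span' k g P h3 F hF A hA

end Pool.Agent.H53R6
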