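import Pool.Agent.H53R6.Mult

/-! # Jets of polynomials which vanish on a hypersurface, at generic points -/

set_option autoImplicit false
set_option linter.unusedSectionVars false

namespace Pool.Agent.H53R6

open MvPolynomial Pool.Agent.H53R5

universe u

lemma exists_det {R k Ξ : Type*} [CommRing R] [Field k] {ω : Type*} [Fintype ω] [DecidableEq ω]
    (π : R →+* k) (x : Ξ → ω → R)
    (h : ∀ A : Submodule k (ω → k), (∀ ξ, (fun w => π (x ξ w)) ∈ A) → A = ⊤) :
    ∃ ξ : ω → Ξ, π (Matrix.det (Matrix.of fun w => x (ξ w))) ≠ 0 := by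
  set t : Set (ω → k) := Set.range (fun ξ => (fun w => π (x ξ w))) with ht
  have hspan : Submodule.span k t = ⊤ := h _ (fun ξ => Submodule.subset_span ⟨ξ, rfl⟩)
  obtain ⟨b, hbt, hbs, hbl⟩ := exists_linearIndependent k t
  rw [hspan] at hbs
  have hbasis : ∃ e : ω ≃ b, True := by
    have B := Module.Basis.mk hbl (by rw [Subtype.range_coe_subtype]; simp [hbs])
    exact ⟨(Pi.basisFun k ω).indexEquiv B, trivial⟩
  obtain ⟨e, -⟩ := hbasis
  have hch : ∀ w : ω, ∃ ξ : Ξ, (fun w' => π (x ξ w')) = (e w : ω → k) := fun w => hbt (e w).2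
  choose ξ hξ using hch
  refine ⟨ξ, ?_⟩
  set M : Matrix ω ω R := Matrix.of (fun w => x (ξ w)) with hM
  have h1 : (M.map π).det ≠ 0 := by
    have : LinearIndependent k (M.map π).row := by
      have h2 : (M.map π).row = (fun w : ω => (e w : ω → k)) := by
        funext w
        rw [← hξ w]
        rfl
      rw [h2]
      exact hbl.comp e e.injective
    rw [Matrix.linearIndependent_rows_iff_isUnit] at this
    exact ((Matrix.isUnit_iff_isUnit_det _).mp this).ne_zero
  intro h0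
  apply h1
  have := RingHom.map_det π M
  rw [h0] at this
  exact this.symm

lemma top_of_det {k : Type*} [Field k] {ω : Type*} [Fintype ω] [DecidableEq ω]
    (y : ω → ω → k) (hdet : (Matrix.of y).det ≠ 0) (A : Submodule k (ω → k))
    (hA : ∀ w, y w ∈ A) : A = ⊤ := by
  have h4 : LinearIndependent k (Matrix.of y).row := by
    rw [Matrix.linearIndependent_rows_iff_isUnit, Matrix.isUnit_iff_isUnit_det]
    exact isUnit_iff_ne_zero.mpr hdet
  have h5 : Submodule.span k (Set.range (Matrix.of y).row) = ⊤ := by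
    apply LinearIndependent.span_eq_top_of_card_eq_finrank' h4
    simp
  rw [eq_top_iff, ← h5, Submodule.span_le]
  rintro _ ⟨w, rfl⟩
  exact hA w

lemma exists_proj {k : Type*} [Field k] {ω : Type*} [Fintype ω] (z : ω → k) (N : ℕ)
    (hN : N + 1 ≤ Fintype.card ω) :
    ∃ π : (ω → k) →ₗ[k] (Fin N → k), Function.Surjective π ∧ π z = 0 := by
  classical
  have h1 : N ≤ Module.finrank k ((ω → k) ⧸ Submodule.span k {z}) := by
    have h2 := Submodule.finrank_quotient_add_finrank (Submodule.span k {z})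
    have h3 : Module.finrank k (Submodule.span k ({z} : Set (ω → k))) ≤ 1 := by
      have h3' := finrank_span_finset_le_card (R := k) ({z} : Finset (ω → k))
      rw [Finset.coe_singleton, Finset.card_singleton] at h3'
      exact h3'
    rw [Module.finrank_fintype_fun_eq_card] at h2
    omega
  let e := (Module.finBasis k ((ω → k) ⧸ Submodule.span k {z})).equivFun
  refine ⟨(LinearMap.funLeft k k (Fin.castLE h1)) ∘ₗ e.toLinearMap ∘ₗ
    (Submodule.span k {z}).mkQ, ?_, ?_⟩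
  · rw [LinearMap.coe_comp, LinearMap.coe_comp]
    refine (LinearMap.funLeft_surjective_of_injective k k _ (Fin.castLE_injective h1)).comp
      (e.surjective.comp (Submodule.mkQ_surjective _))
  · have : (Submodule.span k {z}).mkQ z = 0 := by
      rw [Submodule.mkQ_apply, Submodule.Quotient.mk_eq_zero]
      exact Submodule.mem_span_singleton_self z
    rw [LinearMap.comp_apply, LinearMap.comp_apply, this, map_zero, map_zero]

variable {K : Type u} [Field K] {σ : Type} [DecidableEq σ] [Fintype σ]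

theorem jets_of_vanish [CharZero K] (T : Finset σ) (q f : MvPolynomial σ K) (hq0 : q ≠ 0)
    (hf : f ≠ 0) (hvan : ∀ p, eval p q = 0 → eval p f = 0)
    (hq : ∀ x ∈ T, ∃ A B : Sup K x, q = (A : MvPolynomial σ K) * X x + (B : MvPolynomial σ K) ∧
      (A : MvPolynomial σ K) ≠ 0)
    {ω : Type} [Fintype ω] [DecidableEq ω] {Ξ : Type*} [Nonempty Ξ]
    (P : Ξ → σ → TrivSqZeroExt K (ω → K))
    (hT : ∀ ξ, ∀ v ∈ T, (P ξ v).snd = 0) (hc : ∀ ξ ξ' v, v ∉ T → P ξ v = P ξ' v)
    (hspan : ∀ A : Submodule K (ω → K), (∀ ξ, (aeval (P ξ) q).snd ∈ A) → A = ⊤)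
    (N : ℕ) (hN : N + 1 ≤ Fintype.card ω) :
    ∃ P' : (σ → K) → σ → TrivSqZeroExt K (Fin N → K),
      (∀ ξ, ∀ v ∈ T, (P' ξ v).snd = 0) ∧ (∀ ξ ξ' v, v ∉ T → P' ξ v = P' ξ' v) ∧
      (∀ A : Submodule K (Fin N → K), (∀ ξ, (aeval (P' ξ) f).snd ∈ A) → A = ⊤) := by
  obtain ⟨ξ₀⟩ := (inferInstance : Nonempty Ξ)
  set a₀ : σ → K := fun v => (P ξ₀ v).fst with ha₀
  set b : σ → ω → K := fun v => (P ξ₀ v).snd with hb
  set loc : Ξ → σ → K := fun ξ v => (P ξ v).fst with hloc
  have hbT : ∀ v ∈ T, b v = 0 := fun v hv => hT ξ₀ v hv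
  have hfst : ∀ ξ, (fun v => (P ξ v).fst) = mg T a₀ (loc ξ) := by
    intro ξ
    funext v
    unfold mg
    split_ifs with h
    · rfl
    · rw [hc ξ ξ₀ v h]
  have hsnd : ∀ ξ v, (P ξ v).snd = b v := by
    intro ξ v
    by_cases h : v ∈ T
    · rw [hT ξ v h, hbT v h]
    · rw [hc ξ ξ₀ v h]
  set x : Ξ → ω → MvPolynomial σ K := fun ξ w =>
    ∑ v, sb T (loc ξ) (pderiv v q) * C (b v w) with hx
  have hxe : ∀ a ξ, (fun w => eval a (x ξ w))
      = ∑ v, eval (mg T a (loc ξ)) (pderiv v q) • b v := by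
    intro a ξ
    funext w
    rw [hx, Finset.sum_apply]
    simp only [map_sum, map_mul, eval_C, eval_sb, Pi.smul_apply, smul_eq_mul]
  have hsp : ∀ ξ, (aeval (P ξ) q).snd = ∑ v, eval (mg T a₀ (loc ξ)) (pderiv v q) • b v := by
    intro ξ
    rw [snd_aeval, hfst]
    refine Finset.sum_congr rfl fun v _ => ?_
    rw [hsnd]
  obtain ⟨ξs, hdet⟩ := exists_det (eval a₀) x (by
    intro A hA
    apply hspan
    intro ξ
    rw [hsp, ← hxe]
    exact hA ξ)
  set Δ : MvPolynomial σ K := Matrix.det (Matrix.of fun w => x (ξs w)) with hΔ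
  have hΔ0 : Δ ≠ 0 := fun h => hdet (by rw [h, map_zero])
  choose A B hAB using hq
  have hk1 : ∀ y : T, ∃ G : MvPolynomial σ K, G ≠ 0 ∧ ∀ (T' : Finset σ), y.1 ∈ T' → ∀ a,
      eval a G ≠ 0 → ∀ v : σ → K, v y = 0 → (∀ ξ, eval (mg T' a ξ) (Dv v f) = 0) →
      ∀ ξ, eval (mg T' a ξ) ((A y.1 y.2 : MvPolynomial σ K) * Dv v (B y.1 y.2 : MvPolynomial σ K)
        - (B y.1 y.2 : MvPolynomial σ K) * Dv v (A y.1 y.2 : MvPolynomial σ K)) = 0 := by
    intro y
    refine key1 y.1 (A y.1 y.2) (B y.1 y.2) (hAB y.1 y.2).2 f hf ?_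
    intro p hp
    apply hvan
    rw [(hAB y.1 y.2).1]
    exact hp
  choose G hG0 hG using hk1
  obtain ⟨a, ha⟩ : ∃ a : σ → K, eval a (q * Δ * ∏ y : T, G y) ≠ 0 := by
    by_contra hcon
    push Not at hcon
    have : q * Δ * ∏ y : T, G y = 0 := by
      apply MvPolynomial.funext
      intro a
      rw [hcon a, map_zero]
    exact mul_ne_zero (mul_ne_zero hq0 hΔ0) (Finset.prod_ne_zero_iff.2 fun y _ => hG0 y) this
  rw [map_mul, map_mul, map_prod] at ha
  have hqa : eval a q ≠ 0 := left_ne_zero_of_mul (left_ne_zero_of_mul ha)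
  have hΔa : eval a Δ ≠ 0 := right_ne_zero_of_mul (left_ne_zero_of_mul ha)
  have hGa : ∀ y : T, eval a (G y) ≠ 0 := fun y =>
    Finset.prod_ne_zero_iff.1 (right_ne_zero_of_mul ha) y (Finset.mem_univ _)
  obtain ⟨π, hπ, hπz⟩ := exists_proj (∑ v, eval a (pderiv v q) • b v) N hN
  refine ⟨fun ξ v => TrivSqZeroExt.inl (mg T a ξ v) + TrivSqZeroExt.inr (π (b v)), ?_, ?_, ?_⟩
  · intro ξ v hv
    rw [TrivSqZeroExt.snd_add, TrivSqZeroExt.snd_inl, TrivSqZeroExt.snd_inr, hbT v hv, map_zero,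
      add_zero]
  · intro ξ ξ' v hv
    have : mg T a ξ v = mg T a ξ' v := by
      unfold mg; rw [if_neg hv, if_neg hv]
    simp only [this]
  intro A' hA'
  by_contra hne
  obtain ⟨φ, hφ0, hφ⟩ := Submodule.exists_le_ker_of_lt_top A' (lt_top_iff_ne_top.2 hne)
  set v : σ → K := fun i => φ (π (b i)) with hv
  have hvT : ∀ y ∈ T, v y = 0 := by
    intro y hy
    rw [hv]
    simp only
    rw [hbT y hy, map_zero, map_zero]
  have hφe : ∀ (p : σ → K) (g : MvPolynomial σ K),
      φ (π (∑ i, eval p (pderiv i g) • b i)) = eval p (Dv v g) := by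
    intro p g
    rw [eval_Dv, map_sum, map_sum]
    refine Finset.sum_congr rfl fun i _ => ?_
    rw [map_smul, map_smul, smul_eq_mul, mul_comm]
  have hDf : ∀ ξ, eval (mg T a ξ) (Dv v f) = 0 := by
    intro ξ
    have h1 : φ ((aeval (fun v => TrivSqZeroExt.inl (mg T a ξ v) + TrivSqZeroExt.inr (π (b v))) f :
      TrivSqZeroExt K (Fin N → K)).snd) = 0 := hφ (hA' ξ)
    rw [snd_aeval] at h1
    simp only [TrivSqZeroExt.fst_add, TrivSqZeroExt.fst_inl, TrivSqZeroExt.fst_inr, add_zero,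
      TrivSqZeroExt.snd_add, TrivSqZeroExt.snd_inl, TrivSqZeroExt.snd_inr, zero_add] at h1
    rw [← hφe, map_sum]
    simp only [map_smul] at h1 ⊢
    exact h1
  have hDq : ∀ ξ, eval (mg T a ξ) (Dv v q) = 0 := by
    intro ξ
    refine key2 T a v hvT q ?_ a ?_ ?_ ξ
    · intro y hy
      exact ⟨A y hy, B y hy, (hAB y hy).1, fun ξ => hG ⟨y, hy⟩ T hy a (hGa _) v (hvT y hy) hDf ξ⟩
    · rw [mg_self]; exact hqa
    · rw [mg_self, ← hφe, hπz, map_zero]
  have hker : LinearMap.ker (φ ∘ₗ π) = ⊤ := by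
    refine top_of_det (fun w w' => eval a (x (ξs w) w')) ?_ _ ?_
    · have := RingHom.map_det (eval a) (Matrix.of fun w => x (ξs w))
      rw [← hΔ] at this
      rw [this] at hΔa
      exact hΔa
    · intro w
      rw [LinearMap.mem_ker, hxe a (ξs w), LinearMap.comp_apply, hφe, hDq]
  apply hφ0
  ext w
  rw [LinearMap.ker_eq_top] at hker
  obtain ⟨w', hw'⟩ := hπ (Pi.single w 1)
  have h1 := LinearMap.congr_fun hker w'
  rw [LinearMap.comp_apply, hw'] at h1
  simpa using h1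

end Pool.Agent.H53R6
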