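import Pool.Agent.H53R5.Hess
import Pool.Agent.H567.Nec.Perm

/-! # Directional derivatives and jets -/

set_option autoImplicit false
set_option linter.unusedSectionVars false

namespace Pool.Agent.H53R6

open MvPolynomial Pool.Agent.H53R5

universe u

variable {K : Type u} [Field K] {σ : Type} [DecidableEq σ] [Fintype σ]

/-- first order Taylor expansion -/
lemma fst_aeval {ω : Type*} (P : σ → TrivSqZeroExt K (ω → K)) (f : MvPolynomial σ K) :
    (aeval P f).fst = eval (fun v => (P v).fst) f := by
  have h : ((TrivSqZeroExt.fstHom K K (ω → K)).comp (aeval P) : MvPolynomial σ K →ₐ[K] K)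
      = aeval (fun v => (P v).fst) := by
    apply MvPolynomial.algHom_ext
    intro i
    simp
  have h2 := DFunLike.congr_fun h f
  rw [MvPolynomial.aeval_eq_eval] at h2
  exact h2

lemma snd_aeval {ω : Type*} (P : σ → TrivSqZeroExt K (ω → K)) (f : MvPolynomial σ K) :
    (aeval P f).snd = ∑ v, eval (fun v => (P v).fst) (pderiv v f) • (P v).snd := by
  induction f using MvPolynomial.induction_on with
  | C c => simp [TrivSqZeroExt.algebraMap_eq_inl]
  | add f g hf hg =>
    rw [map_add, TrivSqZeroExt.snd_add, hf, hg, ← Finset.sum_add_distrib]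
    refine Finset.sum_congr rfl fun v _ => ?_
    rw [map_add, map_add, add_smul]
  | mul_X f b hf =>
    rw [map_mul, TrivSqZeroExt.snd_mul, hf, aeval_X, fst_aeval]
    have h1 : ∀ v, eval (fun v => (P v).fst) (pderiv v (f * X b)) • (P v).snd
        = (P b).fst • (eval (fun v => (P v).fst) (pderiv v f) • (P v).snd)
          + (if v = b then eval (fun v => (P v).fst) f • (P b).snd else 0) := by
      intro v
      rw [Derivation.leibniz, pderiv_X, smul_eq_mul, smul_eq_mul, map_add, map_mul, map_mul,
        eval_X, smul_smul]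
      by_cases hvb : v = b
      · subst hvb
        rw [if_pos rfl, Pi.single_eq_same, map_one, mul_one, add_smul, add_comm]
      · rw [if_neg hvb, Pi.single_eq_of_ne (Ne.symm hvb), map_zero, mul_zero, zero_add, add_zero]
    rw [Finset.sum_congr rfl fun v _ => h1 v, Finset.sum_add_distrib, Finset.sum_ite_eq',
      if_pos (Finset.mem_univ _), ← Finset.smul_sum, op_smul_eq_smul, add_comm]

/-- the derivation in the direction `v` -/
noncomputable def Dv (v : σ → K) : Derivation K (MvPolynomial σ K) (MvPolynomial σ K) :=
  mkDerivation K (fun i => C (v i))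

lemma Dv_X (v : σ → K) (i : σ) : Dv v (X i) = C (v i) := by
  unfold Dv
  rw [mkDerivation_X]

lemma Dv_eq (v : σ → K) (f : MvPolynomial σ K) : Dv v f = ∑ i, C (v i) * pderiv i f := by
  induction f using MvPolynomial.induction_on with
  | C c => simp
  | add f g hf hg =>
    rw [map_add, hf, hg, ← Finset.sum_add_distrib]
    refine Finset.sum_congr rfl fun i _ => ?_
    rw [map_add, mul_add]
  | mul_X f b hf =>
    rw [Derivation.leibniz, hf, Dv_X, smul_eq_mul, smul_eq_mul]
    have h1 : ∀ i, C (v i) * pderiv i (f * X b)
        = X b * (C (v i) * pderiv i f) + (if i = b then f * C (v b) else 0) := by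
      intro i
      rw [Derivation.leibniz, pderiv_X, smul_eq_mul, smul_eq_mul]
      by_cases hvb : i = b
      · subst hvb
        rw [if_pos rfl, Pi.single_eq_same]
        ring
      · rw [if_neg hvb, Pi.single_eq_of_ne (Ne.symm hvb)]
        ring
    rw [Finset.sum_congr rfl fun i _ => h1 i, Finset.sum_add_distrib, Finset.sum_ite_eq',
      if_pos (Finset.mem_univ _), ← Finset.mul_sum, add_comm]

lemma eval_Dv (v : σ → K) (f : MvPolynomial σ K) (p : σ → K) :
    eval p (Dv v f) = ∑ i, v i * eval p (pderiv i f) := by
  rw [Dv_eq, map_sum]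
  refine Finset.sum_congr rfl fun i _ => ?_
  rw [map_mul, eval_C]

lemma Dv_mem_Sup (v : σ → K) (a : σ) (f : MvPolynomial σ K) (hf : f ∈ Sup K a) :
    Dv v f ∈ Sup K a := by
  unfold Sup supported at hf
  induction hf using Algebra.adjoin_induction with
  | mem x hx =>
    obtain ⟨i, _, rfl⟩ := hx
    rw [Dv_X]
    exact (Sup K a).algebraMap_mem (v i)
  | algebraMap r =>
    rw [Derivation.map_algebraMap]
    exact (Sup K a).zero_mem
  | add x y _ _ hx hy =>
    rw [map_add]
    exact (Sup K a).add_mem hx hy
  | mul x y hx' hy' hx hy =>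
    rw [Derivation.leibniz, smul_eq_mul, smul_eq_mul]
    exact (Sup K a).add_mem ((Sup K a).mul_mem hx' hy) ((Sup K a).mul_mem hy' hx)

lemma pderiv_eq_zero_of_Sup (a : σ) (f : MvPolynomial σ K) (hf : f ∈ Sup K a) :
    pderiv a f = 0 := by
  unfold Sup supported at hf
  induction hf using Algebra.adjoin_induction with
  | mem x hx =>
    obtain ⟨i, hi, rfl⟩ := hx
    have : i ≠ a := by simpa using hi
    rw [pderiv_X, Pi.single_eq_of_ne (by first | exact this.symm | exact this)]
  | algebraMap r =>
    rw [Derivation.map_algebraMap]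
  | add x y _ _ hx hy =>
    rw [map_add, hx, hy, add_zero]
  | mul x y hx' hy' hx hy =>
    rw [Derivation.leibniz, hx, hy, smul_zero, smul_zero, add_zero]

/-- merging two points: the coordinates in `T` come from `ξ`. -/
def mg (T : Finset σ) (a ξ : σ → K) : σ → K := fun v => if v ∈ T then ξ v else a v

/-- substitution of `a` for the variables off `T` -/
noncomputable def ev (T : Finset σ) (a : σ → K) : MvPolynomial σ K →ₐ[K] MvPolynomial σ K :=
  aeval (fun v => if v ∈ T then X v else C (a v))

lemma eval_ev (T : Finset σ) (a ξ : σ → K) (f : MvPolynomial σ K) :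
    eval ξ (ev T a f) = eval (mg T a ξ) f := by
  have h : (eval ξ).comp (ev T a : MvPolynomial σ K →+* MvPolynomial σ K) = eval (mg T a ξ) := by
    apply MvPolynomial.ringHom_ext
    · intro c
      simp [ev]
    · intro b
      simp only [ev, RingHom.comp_apply, RingHom.coe_coe, aeval_X, eval_X, mg]
      split_ifs with h <;> simp
  exact DFunLike.congr_fun h f

lemma ev_eq_zero [Infinite K] (T : Finset σ) (a : σ → K) (f : MvPolynomial σ K)
    (h : ∀ ξ, eval (mg T a ξ) f = 0) : ev T a f = 0 := by
  apply MvPolynomial.funext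
  intro ξ
  rw [eval_ev, h, map_zero]

/-- substitution of `ξ` for the variables in `T` -/
noncomputable def sb (T : Finset σ) (ξ : σ → K) : MvPolynomial σ K →ₐ[K] MvPolynomial σ K :=
  aeval (fun v => if v ∈ T then C (ξ v) else X v)

lemma eval_sb (T : Finset σ) (a ξ : σ → K) (f : MvPolynomial σ K) :
    eval a (sb T ξ f) = eval (mg T a ξ) f := by
  have h : (eval a).comp (sb T ξ : MvPolynomial σ K →+* MvPolynomial σ K) = eval (mg T a ξ) := by
    apply MvPolynomial.ringHom_ext
    · intro c
      simp [sb]
    · intro b
      simp only [sb, RingHom.comp_apply, RingHom.coe_coe, aeval_X, eval_X, mg]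
      split_ifs with h <;> simp
  exact DFunLike.congr_fun h f

lemma mg_self (T : Finset σ) (a : σ → K) : mg T a a = a := by
  funext v
  unfold mg
  split_ifs <;> rfl

lemma mg_update (T : Finset σ) (a ξ : σ → K) (x : σ) (hx : x ∈ T) (c : K) :
    mg T a (Function.update ξ x c) = Function.update (mg T a ξ) x c := by
  funext v
  unfold mg
  by_cases hv : v = x
  · subst hv
    rw [if_pos hx, Function.update_self, Function.update_self]
  · rw [Function.update_of_ne hv, Function.update_of_ne hv]

end Pool.Agent.H53R6
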