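import Pool.Agent.H53R6.Jet

/-! # Derivatives of polynomials vanishing on a hypersurface `A x + B = 0` -/

set_option autoImplicit false
set_option linter.unusedSectionVars false

namespace Pool.Agent.H53R6

open MvPolynomial Pool.Agent.H53R5

universe u

variable {K : Type u} [Field K] {σ : Type} [DecidableEq σ] [Fintype σ]

lemma Dv_split (v : σ → K) (x : σ) (hv : v x = 0) (A B : MvPolynomial σ K) :
    Dv v (A * X x + B) = Dv v A * X x + Dv v B := by
  rw [map_add, Derivation.leibniz, Dv_X, hv, map_zero, smul_zero, zero_add, smul_eq_mul]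
  ring

lemma deriv_identity (D : Derivation K (MvPolynomial σ K) (MvPolynomial σ K))
    (A f q g : MvPolynomial σ K) (e j : ℕ) (h : A ^ e * f = q ^ (j + 1) * g) :
    A ^ (e + 1) * D f = q ^ j * (((j + 1 : ℕ) : MvPolynomial σ K) * (A * D q * g)
      + q * (A * D g - (e : MvPolynomial σ K) * D A * g)) := by
  have h1 := congrArg D h
  rw [Derivation.leibniz, Derivation.leibniz, Derivation.leibniz_pow, Derivation.leibniz_pow]
    at h1
  simp only [smul_eq_mul, nsmul_eq_mul, Nat.add_sub_cancel] at h1
  have h2 : A * (f * ((e : MvPolynomial σ K) * (A ^ (e - 1) * D A)))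
      = (e : MvPolynomial σ K) * D A * (A ^ e * f) := by
    rcases Nat.eq_zero_or_pos e with he | he
    · subst he; simp
    · obtain ⟨e', rfl⟩ : ∃ e', e = e' + 1 := ⟨e - 1, by omega⟩
      rw [Nat.add_sub_cancel]
      ring
  have h3 : A * (A ^ e * D f + f * ((e : MvPolynomial σ K) * (A ^ (e - 1) * D A)))
      = A * (q ^ (j + 1) * D g + g * (((j + 1 : ℕ) : MvPolynomial σ K) * (q ^ j * D q))) := by
    rw [h1]
  rw [mul_add, h2, h] at h3
  linear_combination h3

theorem key1 [CharZero K] (x : σ) (A B : Sup K x) (hA : (A : MvPolynomial σ K) ≠ 0)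
    (f : MvPolynomial σ K) (hf : f ≠ 0)
    (hvan : ∀ p, eval p ((A : MvPolynomial σ K) * X x + (B : MvPolynomial σ K)) = 0 →
      eval p f = 0) :
    ∃ G : MvPolynomial σ K, G ≠ 0 ∧ ∀ (T : Finset σ), x ∈ T → ∀ a, eval a G ≠ 0 →
      ∀ v : σ → K, v x = 0 → (∀ ξ, eval (mg T a ξ) (Dv v f) = 0) →
      ∀ ξ, eval (mg T a ξ) ((A : MvPolynomial σ K) * Dv v (B : MvPolynomial σ K)
        - (B : MvPolynomial σ K) * Dv v (A : MvPolynomial σ K)) = 0 := by
  set q : MvPolynomial σ K := (A : MvPolynomial σ K) * X x + (B : MvPolynomial σ K) with hqdef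
  obtain ⟨e, P, hP⟩ := exists_rep x A B f
  rw [← hqdef] at hP
  -- the point of `q = 0` above `p`
  have hpt : ∀ p : σ → K, eval p (A : MvPolynomial σ K) ≠ 0 →
      eval (Function.update p x (- eval p (B : MvPolynomial σ K) / eval p (A : MvPolynomial σ K)))
        q = 0 := by
    intro p hp
    rw [hqdef, map_add, map_mul, eval_update A.2, eval_update B.2, eval_X, Function.update_self]
    field_simp
    ring
  have hPne : P ≠ 0 := by
    intro h
    rw [h, map_zero] at hP
    exact mul_ne_zero (pow_ne_zero _ hA) hf hP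
  have hP0 : P.coeff 0 = 0 := by
    have h1 : (A : MvPolynomial σ K) * (P.coeff 0 : MvPolynomial σ K) = 0 := by
      apply MvPolynomial.funext
      intro p
      rw [map_mul, map_zero]
      by_cases hp : eval p (A : MvPolynomial σ K) = 0
      · rw [hp, zero_mul]
      · have h2 := eval_aeval q P _ (hpt p hp)
        rw [← hP, map_mul, hvan _ (hpt p hp), mul_zero, eval_update (P.coeff 0).2] at h2
        rw [← h2, mul_zero]
    rcases mul_eq_zero.1 h1 with h2 | h2
    · exact absurd h2 hA
    · exact Subtype.ext h2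
  obtain ⟨Q, hQ, hQ0⟩ := Polynomial.exists_eq_pow_rootMultiplicity_mul_and_not_dvd P hPne 0
  set j := P.rootMultiplicity 0 with hj
  rw [map_zero, sub_zero] at hQ hQ0
  have hQc : Q.coeff 0 ≠ 0 := fun h => hQ0 (Polynomial.X_dvd_iff.2 h)
  obtain ⟨j', hj'⟩ : ∃ j', j = j' + 1 := by
    rcases Nat.eq_zero_or_pos j with h | h
    · exfalso
      rw [h, pow_zero, one_mul] at hQ
      rw [hQ] at hP0
      exact hQc hP0
    · exact ⟨j - 1, by omega⟩
  rw [hj'] at hQ
  have hrep : (A : MvPolynomial σ K) ^ e * f = q ^ (j' + 1) * Polynomial.aeval q Q := by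
    rw [hP, hQ, map_mul, map_pow, Polynomial.aeval_X]
  refine ⟨(A : MvPolynomial σ K) * (Q.coeff 0 : MvPolynomial σ K), ?_, ?_⟩
  · refine mul_ne_zero hA ?_
    intro h; exact hQc (Subtype.ext h)
  intro T hxT a hG v hv hDf
  have hid := deriv_identity (Dv v) (A : MvPolynomial σ K) f q (Polynomial.aeval q Q) e j' hrep
  set R : MvPolynomial σ K := ((j' + 1 : ℕ) : MvPolynomial σ K) *
    ((A : MvPolynomial σ K) * Dv v q * Polynomial.aeval q Q)
      + q * ((A : MvPolynomial σ K) * Dv v (Polynomial.aeval q Q)
        - (e : MvPolynomial σ K) * Dv v (A : MvPolynomial σ K) * Polynomial.aeval q Q) with hR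
  have hAa : eval a (A : MvPolynomial σ K) ≠ 0 := by
    intro h; apply hG; rw [map_mul, h, zero_mul]
  have hevq : ev T a q ≠ 0 := by
    intro h
    have h1 := congrArg (eval (Function.update a x
      ((1 - eval a (B : MvPolynomial σ K)) / eval a (A : MvPolynomial σ K)))) h
    rw [eval_ev, mg_update T a a x hxT, mg_self, map_zero, hqdef, map_add, map_mul,
      eval_update A.2, eval_update B.2, eval_X, Function.update_self] at h1
    rw [mul_div_cancel₀ _ hAa] at h1
    norm_num at h1
  have hevR : ev T a R = 0 := by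
    have h1 := congrArg (ev T a) hid
    rw [map_mul, map_mul, ev_eq_zero T a (Dv v f) hDf, mul_zero, map_pow] at h1
    rcases mul_eq_zero.1 h1.symm with h2 | h2
    · exact absurd h2 (pow_ne_zero _ hevq)
    · exact h2
  have hRp : ∀ ξ, eval (mg T a ξ) R = 0 := by
    intro ξ
    rw [← eval_ev, hevR, map_zero]
  have hmain : ev T a ((A : MvPolynomial σ K) * (Q.coeff 0 : MvPolynomial σ K) *
      ((A : MvPolynomial σ K) * Dv v (B : MvPolynomial σ K)
        - (B : MvPolynomial σ K) * Dv v (A : MvPolynomial σ K))) = 0 := by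
    apply ev_eq_zero
    intro ξ
    set p := mg T a ξ with hp
    by_cases h0 : eval p ((A : MvPolynomial σ K) * (Q.coeff 0 : MvPolynomial σ K)) = 0
    · rw [map_mul, h0, zero_mul]
    · rw [map_mul] at h0
      have hAp : eval p (A : MvPolynomial σ K) ≠ 0 := left_ne_zero_of_mul h0
      have hcp : eval p (Q.coeff 0 : MvPolynomial σ K) ≠ 0 := right_ne_zero_of_mul h0
      set t : K := - eval p (B : MvPolynomial σ K) / eval p (A : MvPolynomial σ K) with ht
      have hq0 : eval (Function.update p x t) q = 0 := hpt p hAp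
      have h1 := hRp (Function.update ξ x t)
      rw [mg_update T a ξ x hxT, ← hp, hR, map_add, map_mul, map_mul, map_mul, map_mul, hq0,
        zero_mul, add_zero, eval_aeval q Q _ hq0, eval_update A.2, eval_update (Q.coeff 0).2,
        hqdef, Dv_split v x hv, map_add, map_mul, eval_update (Dv_mem_Sup v x _ A.2),
        eval_update (Dv_mem_Sup v x _ B.2), eval_X, Function.update_self, map_natCast] at h1
      have hj1 : ((j' + 1 : ℕ) : K) ≠ 0 := by exact_mod_cast Nat.succ_ne_zero j'
      have h2 : eval p (Dv v (A : MvPolynomial σ K)) * t + eval p (Dv v (B : MvPolynomial σ K))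
          = 0 := by
        rcases mul_eq_zero.1 h1 with h3 | h3
        · exact absurd h3 hj1
        · rcases mul_eq_zero.1 h3 with h4 | h4
          · rcases mul_eq_zero.1 h4 with h5 | h5
            · exact absurd h5 hAp
            · exact h5
          · exact absurd h4 hcp
      have h3 : eval p ((A : MvPolynomial σ K) * Dv v (B : MvPolynomial σ K)
        - (B : MvPolynomial σ K) * Dv v (A : MvPolynomial σ K)) = 0 := by
        rw [map_sub, map_mul, map_mul]
        have h4 : eval p (A : MvPolynomial σ K) * t = - eval p (B : MvPolynomial σ K) := by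
          rw [ht]; field_simp
        linear_combination eval p (A : MvPolynomial σ K) * h2
          - eval p (Dv v (A : MvPolynomial σ K)) * h4
      rw [map_mul, h3, mul_zero]
  intro ξ
  rw [map_mul] at hmain
  rcases mul_eq_zero.1 hmain with h | h
  · exfalso
    apply hG
    have h1 := congrArg (eval a) h
    rw [eval_ev, mg_self, map_zero] at h1
    exact h1
  · rw [← eval_ev, h, map_zero]

/-- `h' q = h q'`, `q(0) ≠ 0`, `h(0) = 0` imply `h = 0`. -/
lemma eq_zero_of_wronskian [CharZero K] (h q : Polynomial K)
    (hw : Polynomial.derivative h * q = h * Polynomial.derivative q) (hq : q.eval 0 ≠ 0)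
    (h0 : h.eval 0 = 0) : h = 0 := by
  have hc : ∀ n, h.coeff n = 0 := by
    intro n
    induction n using Nat.strong_induction_on with
    | _ n ih =>
      rcases Nat.eq_zero_or_pos n with hn | hn
      · subst hn
        rw [Polynomial.coeff_zero_eq_eval_zero]
        exact h0
      · obtain ⟨k, rfl⟩ : ∃ k, n = k + 1 := ⟨n - 1, by omega⟩
        have h1 := congrArg (fun g => Polynomial.coeff g k) hw
        simp only [Polynomial.coeff_mul] at h1
        rw [Finset.sum_eq_single (k, 0), Finset.sum_eq_zero] at h1
        · rw [Polynomial.coeff_derivative, Polynomial.coeff_zero_eq_eval_zero] at h1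
          rcases mul_eq_zero.1 h1 with h2 | h2
          · rcases mul_eq_zero.1 h2 with h3 | h3
            · exact h3
            · exfalso
              have h4 : ((k + 1 : ℕ) : K) = 0 := by push_cast; exact h3
              exact Nat.succ_ne_zero k (by exact_mod_cast h4)
          · exact absurd h2 hq
        · rintro ⟨i, l⟩ hil
          rw [Finset.HasAntidiagonal.mem_antidiagonal] at hil
          simp only at hil ⊢
          rw [ih i (by omega), zero_mul]
        · rintro ⟨i, l⟩ hil hne
          rw [Finset.HasAntidiagonal.mem_antidiagonal] at hil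
          simp only at hil ⊢
          have hl : l ≠ 0 := by
            intro hl
            apply hne
            rw [hl, show i = k by omega]
          rw [Polynomial.coeff_derivative, ih (i + 1) (by omega), zero_mul, zero_mul]
        · intro hcon
          exact absurd (Finset.HasAntidiagonal.mem_antidiagonal.2 (by simp)) hcon
  exact Polynomial.ext (by intro n; rw [hc n, Polynomial.coeff_zero])

theorem key2 [CharZero K] (T : Finset σ) (a v : σ → K) (hv : ∀ x ∈ T, v x = 0)
    (q : MvPolynomial σ K)
    (hq : ∀ x ∈ T, ∃ A B : Sup K x, q = (A : MvPolynomial σ K) * X x + (B : MvPolynomial σ K) ∧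
      ∀ ξ, eval (mg T a ξ) ((A : MvPolynomial σ K) * Dv v (B : MvPolynomial σ K)
        - (B : MvPolynomial σ K) * Dv v (A : MvPolynomial σ K)) = 0)
    (ξ₀ : σ → K) (hq0 : eval (mg T a ξ₀) q ≠ 0) (hD0 : eval (mg T a ξ₀) (Dv v q) = 0)
    (ξ : σ → K) : eval (mg T a ξ) (Dv v q) = 0 := by
  set p := mg T a ξ₀ with hp
  set y : σ → K := fun i => if i ∈ T then ξ i - ξ₀ i else 0 with hy
  have hline : ∀ t : K, (fun b => p b + t * y b) = mg T a (fun i => ξ₀ i + t * (ξ i - ξ₀ i)) := by
    intro t
    funext b
    simp only [hp, hy, mg]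
    split_ifs <;> ring
  have hcross : ∀ x ∈ T, line p y (pderiv x (Dv v q) * q - Dv v q * pderiv x q) = 0 := by
    intro x hx
    obtain ⟨A, B, hAB, hW⟩ := hq x hx
    have h1 : pderiv x q = (A : MvPolynomial σ K) := by
      rw [hAB, map_add, Derivation.leibniz, pderiv_X_self, pderiv_eq_zero_of_Sup x _ A.2,
        pderiv_eq_zero_of_Sup x _ B.2, smul_zero, add_zero, add_zero, smul_eq_mul, mul_one]
    have h2 : Dv v q = Dv v (A : MvPolynomial σ K) * X x + Dv v (B : MvPolynomial σ K) := by
      rw [hAB, Dv_split v x (hv x hx)]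
    have h3 : pderiv x (Dv v q) = Dv v (A : MvPolynomial σ K) := by
      rw [h2, map_add, Derivation.leibniz, pderiv_X_self,
        pderiv_eq_zero_of_Sup x _ (Dv_mem_Sup v x _ A.2),
        pderiv_eq_zero_of_Sup x _ (Dv_mem_Sup v x _ B.2), smul_zero, add_zero, add_zero,
        smul_eq_mul, mul_one]
    have h4 : pderiv x (Dv v q) * q - Dv v q * pderiv x q
        = -((A : MvPolynomial σ K) * Dv v (B : MvPolynomial σ K)
        - (B : MvPolynomial σ K) * Dv v (A : MvPolynomial σ K)) := by
      rw [h1, h3, h2, hAB]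
      ring
    apply line_eq_zero
    intro t
    rw [hline t, h4, map_neg, hW, neg_zero]
  have hw : Polynomial.derivative (line p y (Dv v q)) * line p y q
      = line p y (Dv v q) * Polynomial.derivative (line p y q) := by
    rw [derivative_line, derivative_line, Finset.sum_mul, Finset.mul_sum]
    refine Finset.sum_congr rfl fun e _ => ?_
    by_cases he : e ∈ T
    · have h1 := hcross e he
      rw [map_sub, map_mul, map_mul] at h1
      linear_combination Polynomial.C (y e) * h1
    · have : y e = 0 := by simp [hy, he]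
      rw [this]
      simp
  have hz : line p y (Dv v q) = 0 := by
    apply eq_zero_of_wronskian _ (line p y q) hw
    · rw [eval_line]
      simp only [zero_mul, add_zero]
      exact hq0
    · rw [eval_line]
      simp only [zero_mul, add_zero]
      exact hD0
  have h1 := congrArg (Polynomial.eval 1) hz
  rw [eval_line, Polynomial.eval_zero, hline 1] at h1
  have h2 : (fun i => ξ₀ i + 1 * (ξ i - ξ₀ i)) = ξ := by
    funext i; ring
  rw [h2] at h1
  exact h1

end Pool.Agent.H53R6
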