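import Pool.Agent.H53R6.Generic
import Pool.Agent.H567.Nec.Transfer

/-! # Jets of polynomials vanishing where the permanent vanishes -/

set_option autoImplicit false
set_option linter.unusedSectionVars false

namespace Pool.Agent.H53R6

open MvPolynomial Pool.Agent.H53R5 Pool.Agent.H567.Nec

universe u

variable {K : Type u} [Field K]

lemma gperm_eq (m : ℕ) : gperm K m = ∑ s : Equiv.Perm (Fin m), ∏ k, X (s k, k) := by
  unfold gperm Matrix.permanent
  simp only [Matrix.of_apply]

lemma exists_split [CharZero K] (m : ℕ) (x : Fin m × Fin m) :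
    ∃ A B : Sup K x, gperm K m = (A : MvPolynomial (Fin m × Fin m) K) * X x
      + (B : MvPolynomial (Fin m × Fin m) K) ∧ (A : MvPolynomial (Fin m × Fin m) K) ≠ 0 := by
  classical
  obtain ⟨i, j⟩ := x
  set A : MvPolynomial (Fin m × Fin m) K := ∑ s : Equiv.Perm (Fin m),
    if s j = i then ∏ k ∈ Finset.univ.erase j, X (s k, k) else 0 with hA
  set B : MvPolynomial (Fin m × Fin m) K := ∑ s : Equiv.Perm (Fin m),
    if s j = i then 0 else ∏ k, X (s k, k) with hB
  have hAm : A ∈ Sup K (i, j) := by
    refine (Sup K (i, j)).sum_mem fun s _ => ?_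
    split_ifs with h
    · refine (Sup K (i, j)).prod_mem fun k hk => ?_
      apply X_mem_Sup
      intro h'
      exact Finset.ne_of_mem_erase hk (congrArg Prod.snd h')
    · exact (Sup K (i, j)).zero_mem
  have hBm : B ∈ Sup K (i, j) := by
    refine (Sup K (i, j)).sum_mem fun s _ => ?_
    split_ifs with h
    · exact (Sup K (i, j)).zero_mem
    · refine (Sup K (i, j)).prod_mem fun k hk => ?_
      apply X_mem_Sup
      intro h'
      apply h
      have h1 := congrArg Prod.snd h'
      have h2 := congrArg Prod.fst h'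
      simp only at h1 h2
      rw [← h1]; exact h2
  refine ⟨⟨A, hAm⟩, ⟨B, hBm⟩, ?_, ?_⟩
  · rw [gperm_eq]
    simp only [hA, hB]
    rw [Finset.sum_mul, ← Finset.sum_add_distrib]
    refine Finset.sum_congr rfl fun s _ => ?_
    split_ifs with h
    · rw [← Finset.prod_erase_mul Finset.univ _ (Finset.mem_univ j), h, add_zero]
    · rw [zero_mul, zero_add]
  · intro h
    have h1 := congrArg (eval (fun _ => (1 : K))) h
    simp only [hA, map_sum, map_zero] at h1
    have h2 : ∀ s : Equiv.Perm (Fin m), eval (fun _ => (1 : K))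
        (if s j = i then ∏ k ∈ Finset.univ.erase j, X (s k, k) else 0 :
          MvPolynomial (Fin m × Fin m) K) = if s j = i then 1 else 0 := by
      intro s
      split_ifs with h
      · rw [map_prod]
        simp
      · simp
    rw [Finset.sum_congr rfl fun s _ => h2 s, Finset.sum_boole] at h1
    have h3 : (Finset.univ.filter fun s : Equiv.Perm (Fin m) => s j = i).card = 0 := by
      exact_mod_cast h1
    rw [Finset.card_eq_zero, Finset.filter_eq_empty_iff] at h3
    exact h3 (Finset.mem_univ (Equiv.swap i j)) (Equiv.swap_apply_right i j)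

lemma gperm_ne_zero [CharZero K] (m : ℕ) : gperm K m ≠ 0 := by
  intro h
  have h1 := congrArg (eval (fun _ => (1 : K))) h
  rw [gperm_eq, map_sum, map_zero] at h1
  simp only [map_prod, eval_X, Finset.prod_const_one, Finset.sum_const, nsmul_eq_mul,
    mul_one] at h1
  have h2 : (Finset.univ : Finset (Equiv.Perm (Fin m))).card = 0 := by exact_mod_cast h1
  rw [Finset.card_eq_zero] at h2
  exact absurd h2 Finset.univ_nonempty.ne_empty

/-- The family of jets for a nonzero polynomial which vanishes where the permanent vanishes. -/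
theorem exists_jets_vanish [CharZero K] (m ℓ n' : ℕ) (hm : 2 * ℓ + n' = m)
    (hn : n' ≤ 2 ^ ℓ) (hn0 : 1 ≤ n') (r c : Fin (2 * ℓ) → Fin m) (hr : Function.Injective r)
    (hc : Function.Injective c) (f : MvPolynomial (Fin m × Fin m) K) (hf : f ≠ 0)
    (hvan : ∀ p, eval p (gperm K m) = 0 → eval p f = 0) (T : Finset (Fin m × Fin m))
    (hT : T = Finset.univ.image (fun s => (r s, c s))) :
    ∃ P : (Fin m × Fin m → K) → (Fin m × Fin m) → TrivSqZeroExt K (Fin (n' ^ 2 - 1) → K),
      (∀ ξ, ∀ v ∈ T, (P ξ v).snd = 0) ∧ (∀ ξ ξ' v, v ∉ T → P ξ v = P ξ' v) ∧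
      (∀ A : Submodule K (Fin (n' ^ 2 - 1) → K), (∀ ξ, (aeval (P ξ) f).snd ∈ A) → A = ⊤) := by
  obtain ⟨Ξ, P, h1, h2, h3⟩ := exists_jets K m ℓ n' hm hn r c hr hc
  refine jets_of_vanish T (gperm K m) f (gperm_ne_zero m) hf hvan
    (fun x _ => exists_split m x) P ?_ ?_ h3 _ ?_
  · intro ξ v hv
    rw [hT] at hv
    obtain ⟨s, _, rfl⟩ := Finset.mem_image.mp hv
    exact h1 ξ s
  · intro ξ ξ' v hv
    apply h2
    intro s hs
    apply hv
    rw [hT, hs]
    exact Finset.mem_image.mpr ⟨s, Finset.mem_univ _, rfl⟩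
  · rw [Fintype.card_prod, Fintype.card_fin]
    have : 1 ≤ n' ^ 2 := Nat.one_le_pow _ _ hn0
    rw [← pow_two]
    omega

end Pool.Agent.H53R6
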