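import Pool.Agent.H53R6.Bound

/-! # Decision trees whose tests are zero tests of formulas -/

set_option autoImplicit false
set_option linter.unusedSectionVars false

namespace Pool.Agent.H53R6

open MvPolynomial Pool.Agent.H53R5 Pool.Agent.H567.Nec

universe u

/-- Decision trees. A leaf carries an answer. An inner node carries an arithmetic formula; on input
`p` one continues in the first subtree if the formula takes the value `0` at `p`, and in the second
subtree otherwise. -/
inductive ZTree (K : Type u) (σ : Type) : Type u
  | leaf (b : Bool) : ZTree K σ
  | test (F : Formula K σ) (yes no : ZTree K σ) : ZTree K σ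

namespace ZTree

variable {K : Type u} {σ : Type}

open Classical in
/-- the answer on input `p` -/
noncomputable def answer [Field K] (p : σ → K) : ZTree K σ → Bool
  | leaf b => b
  | test F yes no => if eval p F.poly = 0 then yes.answer p else no.answer p

/-- The cost of a tree is the largest total size of the formulas on a path from the root to a
leaf. -/
def cost : ZTree K σ → ℕ
  | leaf _ => 0
  | test F yes no => F.size + max yes.cost no.cost

/-- the product of the formulas on the generic path -/
lemma exists_generic [Field K] (t : ZTree K σ) :
    ∃ (G : Formula K σ) (b : Bool), G.size ≤ t.cost ∧ G.poly ≠ 0 ∧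
      ∀ p : σ → K, eval p G.poly ≠ 0 → t.answer p = b := by
  classical
  induction t with
  | leaf b =>
    refine ⟨Formula.const 1, b, ?_, ?_, fun p _ => rfl⟩
    · simp [Formula.size]
    · simp [Formula.poly]
  | test F yes no hy hn =>
    by_cases hF : F.poly = 0
    · obtain ⟨G, b, h1, h2, h3⟩ := hy
      refine ⟨G, b, ?_, h2, ?_⟩
      · simp only [cost]
        have := le_max_left yes.cost no.cost
        omega
      · intro p hp
        simp only [answer]
        rw [if_pos (by rw [hF, map_zero])]
        exact h3 p hp
    · obtain ⟨G, b, h1, h2, h3⟩ := hn
      refine ⟨Formula.mul F G, b, ?_, ?_, ?_⟩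
      · simp only [cost, Formula.size]
        have := le_max_right yes.cost no.cost
        omega
      · exact mul_ne_zero hF h2
      · intro p hp
        simp only [Formula.poly, map_mul] at hp
        simp only [answer]
        rw [if_neg (left_ne_zero_of_mul hp)]
        exact h3 p (right_ne_zero_of_mul hp)

end ZTree

lemma eval_gperm {K : Type u} [Field K] (m : ℕ) (p : Fin m × Fin m → K) :
    eval p (gperm K m) = (Matrix.of fun i j => p (i, j)).permanent := by
  rw [gperm_eq, map_sum]
  unfold Matrix.permanent
  refine Finset.sum_congr rfl fun s _ => ?_
  rw [map_prod]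
  refine Finset.prod_congr rfl fun k _ => ?_
  rw [eval_X, Matrix.of_apply]

/-- `f` vanishes at all matrices with entries in `K` whose permanent is zero. -/
def VanishesWithPer {K : Type u} [Field K] {m : ℕ} (f : MvPolynomial (Fin m × Fin m) K) : Prop :=
  ∀ X : Matrix (Fin m) (Fin m) K, X.permanent = 0 → eval (fun p => X p.1 p.2) f = 0

lemma VanishesWithPer.van {K : Type u} [Field K] {m : ℕ} {f : MvPolynomial (Fin m × Fin m) K}
    (h : VanishesWithPer f) (p : Fin m × Fin m → K) (hp : eval p (gperm K m) = 0) :
    eval p f = 0 := by
  rw [eval_gperm] at hp
  exact h _ hp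

end Pool.Agent.H53R6
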